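import Pool.Agent.V7H41.CD.Spec
import Pool.Agent.V7H81.CC.GREEDY
import Pool.Agent.V7H31.CC.CUT
import Pool.Agent.V7H67.CC.PIECES

/-! LOW: many systems of `m` pairs with disjoint paths in two trees, inside a set of leaves
(adapted from `V7H81/CC/GREEDY.lean`). -/

set_option autoImplicit false

open Finset
open scoped Classical

namespace Pool.Agent.V7H94.CD

open Pool.Agent.V7H41.CC Pool.Agent.V7H81.CC Pool.Agent.V7H41.CD

section comb

variable {n : ℕ}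

theorem rest_cardL {r s N : ℕ} {Z : Fin r → Finset (Fin n)}
    (hZ : ∀ i j, i ≠ j → Disjoint (Z i) (Z j)) (hs : ∀ i, s ≤ (Z i).card ∧ (Z i).card < 2 * s)
    (hn : N < (∑ i, (Z i).card) + 2 * s) {Q : Finset (Finset (Fin n))}
    (hQ : ∀ A ∈ Q, A.card = 2) :
    N < ((univ \ used Z Q).biUnion Z).card + 2 * s * (Q.card + 1) := by
  have h1 : ∑ i ∈ univ \ used Z Q, (Z i).card + ∑ i ∈ used Z Q, (Z i).card =
      ∑ i, (Z i).card := sum_sdiff (subset_univ _)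
  have h2 : ∑ i ∈ used Z Q, (Z i).card ≤ (used Z Q).card * (2 * s) := by
    have := sum_le_card_nsmul (used Z Q) (fun i => (Z i).card) (2 * s) fun i _ => (hs i).2.le
    simpa using this
  have h3 : (used Z Q).card * (2 * s) ≤ Q.card * (2 * s) :=
    Nat.mul_le_mul_right _ (used_card hZ hQ)
  rw [all_card hZ]
  have h4 : 2 * s * (Q.card + 1) = Q.card * (2 * s) + 2 * s := by ring
  rw [h4]
  omega

variable {q q' : ℕ} {X : Fin q → Finset (Fin n)} {Y : Fin q' → Finset (Fin n)}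
  {L : Finset (Fin n)}

theorem ext_lowL {m s : ℕ} (hs1 : 1 ≤ s) (hn1 : 16 * s * (m + 1) ≤ L.card) (hn2 : 4 * L.card ≤ s ^ 2)
    (hXL : ∀ i, X i ⊆ L) (hYL : ∀ i, Y i ⊆ L)
    (hX : ∀ i j, i ≠ j → Disjoint (X i) (X j)) (hY : ∀ i j, i ≠ j → Disjoint (Y i) (Y j))
    (hXs : ∀ i, s ≤ (X i).card ∧ (X i).card < 2 * s) (hYs : ∀ i, s ≤ (Y i).card ∧ (Y i).card < 2 * s)
    (hXn : L.card < (∑ i, (X i).card) + 2 * s) (hYn : L.card < (∑ i, (Y i).card) + 2 * s)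
    {Q : Finset (Finset (Fin n))} (hQ : ∀ A ∈ Q, A.card = 2) (hQm : Q.card + 1 ≤ m) :
    (s : ℝ) ^ 2 / 8 ≤ ((ext X Y Q).card : ℝ) := by
  have hnpos : 0 < L.card := by
    have : 1 ≤ 16 * s * (m + 1) := by
      have : 1 ≤ s * (m + 1) := Nat.mul_pos hs1 (by omega)
      nlinarith
    omega
  rw [ext_card hX hY]
  obtain ⟨I, hI⟩ : ∃ I, I = univ \ used X Q := ⟨_, rfl⟩
  obtain ⟨J, hJ⟩ : ∃ J, J = univ \ used Y Q := ⟨_, rfl⟩
  have hU := rest_cardL hX hXs hXn hQ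
  have hV := rest_cardL hY hYs hYn hQ
  rw [← hI] at hU ⊢
  rw [← hJ] at hV ⊢
  obtain ⟨R, hR⟩ : ∃ R, R = ∑ p ∈ I ×ˢ J, (X p.1 ∩ Y p.2).card := ⟨_, rfl⟩
  have h1 : (I.biUnion X ∩ J.biUnion Y).card ≤ R := by
    rw [hR]
    refine le_trans (card_le_card ?_) card_biUnion_le
    intro a ha
    rw [mem_inter, mem_biUnion, mem_biUnion] at ha
    obtain ⟨⟨i, hi, hai⟩, j, hj, haj⟩ := ha
    rw [mem_biUnion]
    exact ⟨(i, j), mem_product.2 ⟨hi, hj⟩, mem_inter.2 ⟨hai, haj⟩⟩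
  have h2 := card_union_add_card_inter (I.biUnion X) (J.biUnion Y)
  have h3 : (I.biUnion X ∪ J.biUnion Y).card ≤ L.card := card_le_card
    (union_subset (biUnion_subset.2 fun i _ => hXL i) (biUnion_subset.2 fun j _ => hYL j))
  have h4 : L.card < R + 4 * s * (Q.card + 1) := by
    have : 4 * s * (Q.card + 1) = 2 * s * (Q.card + 1) + 2 * s * (Q.card + 1) := by ring
    omega
  have h5 : 4 * (4 * s * (Q.card + 1)) ≤ L.card := by
    refine le_trans ?_ hn1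
    have : 4 * (4 * s * (Q.card + 1)) = 16 * s * (Q.card + 1) := by ring
    rw [this]
    exact Nat.mul_le_mul_left _ (by omega)
  have h6 : 3 * L.card < 4 * R := by omega
  have hq : ∀ {r : ℕ} {Z : Fin r → Finset (Fin n)}, (∀ i j, i ≠ j → Disjoint (Z i) (Z j)) →
      (∀ i, s ≤ (Z i).card ∧ (Z i).card < 2 * s) → (∀ i, Z i ⊆ L) →
      ∀ K : Finset (Fin r), K.card * s ≤ L.card := by
    intro r Z hZ hZs hZL K
    have h7 : K.card * s ≤ ∑ i ∈ K, (Z i).card := by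
      have := card_nsmul_le_sum K (fun i => (Z i).card) s fun i _ => (hZs i).1
      simpa using this
    rw [← all_card hZ] at h7
    exact h7.trans (card_le_card (biUnion_subset.2 fun i _ => hZL i))
  have hc : ((I ×ˢ J).card : ℝ) * (s : ℝ) ^ 2 ≤ (L.card : ℝ) ^ 2 := by
    have h7 := hq hX hXs hXL I
    have h8 := hq hY hYs hYL J
    have h9 : (I.card * s) * (J.card * s) ≤ L.card * L.card := Nat.mul_le_mul h7 h8
    rw [card_product]
    have h10 : ((I.card * s) * (J.card * s) : ℝ) ≤ L.card * L.card := by exact_mod_cast h9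
    push_cast
    nlinarith
  have hcs := sq_sum_le_card_mul_sum_sq (s := I ×ˢ J)
    (f := fun p => (((X p.1 ∩ Y p.2).card : ℕ) : ℝ))
  have hRR : ∑ p ∈ I ×ˢ J, (((X p.1 ∩ Y p.2).card : ℕ) : ℝ) = (R : ℝ) := by
    rw [hR]
    push_cast
    rfl
  rw [hRR] at hcs
  have hfin := num (nn := (L.card : ℝ)) (R := (R : ℝ)) (s := (s : ℝ))
    (S2 := ∑ p ∈ I ×ˢ J, (((X p.1 ∩ Y p.2).card : ℕ) : ℝ) ^ 2) (c := ((I ×ˢ J).card : ℝ))
    (by exact_mod_cast hnpos) (by exact_mod_cast hs1) (by exact_mod_cast h6)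
    (by exact_mod_cast hn2) hcs hc (sum_nonneg fun _ _ => sq_nonneg _)
  refine hfin.trans (le_of_eq ?_)
  rw [← hRR, ← sum_sub_distrib, sum_div]
  push_cast
  refine sum_congr rfl fun p _ => ?_
  rw [Nat.cast_choose_two]
  ring

theorem stepL {m s : ℕ} (hs1 : 1 ≤ s) (hn1 : 16 * s * (m + 1) ≤ L.card) (hn2 : 4 * L.card ≤ s ^ 2)
    (hXL : ∀ i, X i ⊆ L) (hYL : ∀ i, Y i ⊆ L)
    (hX : ∀ i j, i ≠ j → Disjoint (X i) (X j)) (hY : ∀ i j, i ≠ j → Disjoint (Y i) (Y j))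
    (hXs : ∀ i, s ≤ (X i).card ∧ (X i).card < 2 * s) (hYs : ∀ i, s ≤ (Y i).card ∧ (Y i).card < 2 * s)
    (hXn : L.card < (∑ i, (X i).card) + 2 * s) (hYn : L.card < (∑ i, (Y i).card) + 2 * s)
    (t : ℕ) (ht : t + 1 ≤ m) :
    ((s : ℝ) ^ 2 / 8) * ((NN X Y t).card : ℝ) ≤ ((t : ℝ) + 1) * ((NN X Y (t + 1)).card : ℝ) := by
  have hout : ∀ Q : Finset (Finset (Fin n)), ∀ A ∈ ext X Y Q, A.card = 2 ∧
      ∃ i j, A ⊆ X i ∧ A ⊆ Y j ∧ (∀ B ∈ Q, ¬ B ⊆ X i) ∧ ∀ B ∈ Q, ¬ B ⊆ Y j := by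
    intro Q A hA
    unfold Pool.Agent.V7H81.CC.ext at hA
    rw [mem_biUnion] at hA
    obtain ⟨p, hp, hA⟩ := hA
    rw [mem_product, mem_sdiff, mem_sdiff] at hp
    rw [mem_powersetCard] at hA
    refine ⟨hA.2, p.1, p.2, hA.1.trans inter_subset_left, hA.1.trans inter_subset_right,
      fun B hB hBX => hp.1.2 (mem_filter.2 ⟨mem_univ _, B, hB, hBX⟩),
      fun B hB hBY => hp.2.2 (mem_filter.2 ⟨mem_univ _, B, hB, hBY⟩)⟩
  have hnot : ∀ Q : Finset (Finset (Fin n)), ∀ A ∈ ext X Y Q, A ∉ Q := by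
    intro Q A hA hAQ
    obtain ⟨-, i, j, h1, -, h2, -⟩ := hout Q A hA
    exact h2 A hAQ h1
  have hins : ∀ Q ∈ NN X Y t, ∀ A ∈ ext X Y Q, insert A Q ∈ NN X Y (t + 1) := by
    intro Q hQ A hA
    obtain ⟨h0, i, j, h1, h1', h2, h2'⟩ := hout Q A hA
    unfold NN at hQ ⊢
    rw [mem_filter] at hQ ⊢
    obtain ⟨-, hQc, hQ1, hQ2⟩ := hQ
    refine ⟨mem_univ _, by rw [card_insert_of_notMem (hnot Q A hA), hQc], ?_, ?_⟩
    · intro B hB
      rcases mem_insert.1 hB with rfl | hB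
      · exact ⟨h0, ⟨i, h1⟩, j, h1'⟩
      · exact hQ1 B hB
    · intro B hB B' hB' hBB
      rcases mem_insert.1 hB with hBA | hBQ
      · rcases mem_insert.1 hB' with hBA' | hBQ'
        · exact absurd (hBA.trans hBA'.symm) hBB
        · subst hBA
          refine ⟨fun k hk hk' => ?_, fun k hk hk' => ?_⟩
          · rw [two_unique hX h0 hk h1] at hk'
            exact h2 B' hBQ' hk'
          · rw [two_unique hY h0 hk h1'] at hk'
            exact h2' B' hBQ' hk'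
      · rcases mem_insert.1 hB' with hBA' | hBQ'
        · subst hBA'
          refine ⟨fun k hk hk' => ?_, fun k hk hk' => ?_⟩
          · rw [two_unique hX h0 hk' h1] at hk
            exact h2 B hBQ hk
          · rw [two_unique hY h0 hk' h1'] at hk
            exact h2' B hBQ hk
        · exact hQ2 B hBQ B' hBQ' hBB
  have hcard : ((NN X Y t).sigma fun Q => ext X Y Q).card ≤
      ((NN X Y (t + 1)).sigma fun Q => Q).card := by
    apply card_le_card_of_injOn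
      (fun x : (_ : Finset (Finset (Fin n))) × Finset (Fin n) =>
        (⟨insert x.2 x.1, x.2⟩ : (_ : Finset (Finset (Fin n))) × Finset (Fin n)))
    · rintro ⟨Q, A⟩ hx
      rw [mem_coe, mem_sigma] at hx
      rw [mem_coe, mem_sigma]
      exact ⟨hins Q hx.1 A hx.2, mem_insert_self _ _⟩
    · rintro ⟨Q, A⟩ hx ⟨Q', A'⟩ hx' he
      rw [mem_coe, mem_sigma] at hx hx'
      have h1 : insert A Q = insert A' Q' := congrArg Sigma.fst he
      have h2 : A = A' := congrArg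
        (fun y : (_ : Finset (Finset (Fin n))) × Finset (Fin n) => y.2) he
      subst h2
      have h3 : Q = Q' := by
        rw [← erase_insert (hnot Q A hx.2), h1, erase_insert (hnot Q' A hx'.2)]
      rw [h3]
  rw [card_sigma, card_sigma] at hcard
  have h1 : ∑ Q ∈ NN X Y (t + 1), Q.card = (NN X Y (t + 1)).card * (t + 1) := by
    rw [sum_congr rfl fun Q hQ => (mem_filter.1 hQ).2.1, sum_const, smul_eq_mul]
  rw [h1] at hcard
  have h2 : ((NN X Y t).card : ℝ) * ((s : ℝ) ^ 2 / 8) ≤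
      ∑ Q ∈ NN X Y t, ((ext X Y Q).card : ℝ) := by
    have := card_nsmul_le_sum (NN X Y t) (fun Q => ((ext X Y Q).card : ℝ)) ((s : ℝ) ^ 2 / 8)
      fun Q hQ => by
        obtain ⟨-, hQc, hQ1, -⟩ := mem_filter.1 hQ
        exact ext_lowL hs1 hn1 hn2 hXL hYL hX hY hXs hYs hXn hYn (fun A hA => (hQ1 A hA).1) (by omega)
    simpa using this
  have h3 : ∑ Q ∈ NN X Y t, ((ext X Y Q).card : ℝ) ≤ ((NN X Y (t + 1)).card : ℝ) * ((t : ℝ) + 1) := by
    exact_mod_cast hcard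
  linarith

theorem manyL {m s : ℕ} (hs1 : 1 ≤ s) (hn1 : 16 * s * (m + 1) ≤ L.card) (hn2 : 4 * L.card ≤ s ^ 2)
    (hXL : ∀ i, X i ⊆ L) (hYL : ∀ i, Y i ⊆ L)
    (hX : ∀ i j, i ≠ j → Disjoint (X i) (X j)) (hY : ∀ i j, i ≠ j → Disjoint (Y i) (Y j))
    (hXs : ∀ i, s ≤ (X i).card ∧ (X i).card < 2 * s) (hYs : ∀ i, s ≤ (Y i).card ∧ (Y i).card < 2 * s)
    (hXn : L.card < (∑ i, (X i).card) + 2 * s) (hYn : L.card < (∑ i, (Y i).card) + 2 * s) :
    ∀ t ≤ m, ((s : ℝ) ^ 2 / 8) ^ t / t.factorial ≤ ((NN X Y t).card : ℝ) := by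
  intro t
  induction t with
  | zero =>
    intro _
    have h1 : (∅ : Finset (Finset (Fin n))) ∈ NN X Y 0 :=
      mem_filter.2 ⟨mem_univ _, card_empty, fun A hA => absurd hA (notMem_empty A),
        fun A hA => absurd hA (notMem_empty A)⟩
    have h2 : 1 ≤ (NN X Y 0).card := card_pos.2 ⟨_, h1⟩
    simp only [pow_zero, Nat.factorial_zero, Nat.cast_one, div_one]
    exact_mod_cast h2
  | succ t ih =>
    intro ht
    have h1 := ih (by omega)
    have h2 := stepL hs1 hn1 hn2 hXL hYL hX hY hXs hYs hXn hYn t ht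
    have h3 : (0 : ℝ) < (t : ℝ) + 1 := by positivity
    have h4 : ((s : ℝ) ^ 2 / 8) * (((s : ℝ) ^ 2 / 8) ^ t / t.factorial) ≤
        ((t : ℝ) + 1) * ((NN X Y (t + 1)).card : ℝ) :=
      (mul_le_mul_of_nonneg_left h1 (by positivity)).trans h2
    rw [Nat.factorial_succ]
    push_cast
    rw [div_le_iff₀ (by positivity)]
    have h5 : (0 : ℝ) < (t.factorial : ℝ) := by exact_mod_cast Nat.factorial_pos t
    have h6 := mul_le_mul_of_nonneg_right h4 h5.le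
    have h7 : ((s : ℝ) ^ 2 / 8) * (((s : ℝ) ^ 2 / 8) ^ t / t.factorial) * t.factorial =
        ((s : ℝ) ^ 2 / 8) ^ (t + 1) := by
      rw [mul_assoc, div_mul_cancel₀ _ h5.ne', ← pow_succ' ((s : ℝ) ^ 2 / 8) t]
    rw [h7] at h6
    linarith

end comb

/-- LOW. -/
theorem t_LOW : S_LOW := by
  intro n m s T F L hs1 hn1 hn2
  obtain ⟨q, X, hXL, hXs, hXn, hX, hXT⟩ :=
    Pool.Agent.V7H67.CC.pieces Pool.Agent.V7H31.CC.t_CUT n T s hs1 _ L rfl
  obtain ⟨q', Y, hYL, hYs, hYn, hY, hYF⟩ :=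
    Pool.Agent.V7H67.CC.pieces Pool.Agent.V7H31.CC.t_CUT n F s hs1 _ L rfl
  have h1 := manyL (X := X) (Y := Y) (L := L) hs1 hn1 hn2 hXL hYL hX hY hXs hYs hXn hYn m le_rfl
  refine h1.trans ?_
  rw [← Set.ncard_coe_finset]
  apply Nat.cast_le.2
  apply Set.ncard_le_ncard _ (Set.toFinite _)
  intro Q hQ
  rw [mem_coe] at hQ
  obtain ⟨-, hQc, hQ1, hQ2⟩ := mem_filter.1 hQ
  refine ⟨⟨hQc, fun A hA => (hQ1 A hA).1, fun A hA B hB hAB => ?_⟩, fun A hA => ?_⟩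
  · obtain ⟨-, ⟨i, hi⟩, j, hj⟩ := hQ1 A hA
    obtain ⟨-, ⟨i', hi'⟩, j', hj'⟩ := hQ1 B hB
    obtain ⟨h2, h3⟩ := hQ2 A hA B hB hAB
    refine ⟨hXT i i' ?_ A B hi hi', hYF j j' ?_ A B hj hj'⟩
    · rintro rfl
      exact h2 i hi hi'
    · rintro rfl
      exact h3 j hj hj'
  · obtain ⟨-, ⟨i, hi⟩, -⟩ := hQ1 A hA
    exact hi.trans (hXL i)

end Pool.Agent.V7H94.CD
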